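import Pool.Agent.H27.ZF.TB
import Pool.Agent.H31.ZN.FAR
import Pool.Agent.H69.ZN.ZRO

/-!
Board zf (MP_52e316_nt): row Z1, few pairs of a form and a window with a zero.
-/

set_option autoImplicit false

namespace Pool.Agent.H87.ZF

open MeasureTheory Pool.Agent.H27.L1.H34.GM Pool.Agent.H27.L1.H34.GZ Pool.Agent.H27.L1.H34.GU
  Pool.Agent.H27.L1.H34.GA
open Pool.Agent.H27.ZF

theorem nU_of_orthn {m N : ℕ} [NeZero N] {D : Set (V m)} {S : Type} [DecidableEq S]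
    {F : S → Mat m → VN m N → ℂ} (h : Orthn D F) (i : S) : nU D (F i) = 1 := by
  have h1 := h.2 i i
  rw [if_pos rfl] at h1
  have h2 : ((nU D (F i) : ℝ) : ℂ) = 1 := by
    rw [← h1]
    unfold nU
    rw [Complex.ofReal_sum]
    refine Finset.sum_congr rfl fun x _ => ?_
    rw [← integral_complex_ofReal]
    refine integral_congr_ae (Filter.Eventually.of_forall fun z => ?_)
    simp only
    rw [Complex.mul_conj, Complex.normSq_eq_norm_sq]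
  exact_mod_cast h2

theorem card_le {P : ℝ} (hP : 1 ≤ P) (p : ℤ → Prop) [DecidablePred p] :
    (((Finset.Icc (-⌊P⌋) ⌊P⌋).filter p).card : ℝ) ≤ 3 * P := by
  have h1 : ((Finset.Icc (-⌊P⌋) ⌊P⌋).filter p).card ≤ (Finset.Icc (-⌊P⌋) ⌊P⌋).card :=
    Finset.card_filter_le _ _
  have h0 : 0 ≤ ⌊P⌋ := Int.floor_nonneg.2 (by linarith)
  have h2 : ((Finset.Icc (-⌊P⌋) ⌊P⌋).card : ℤ) = 2 * ⌊P⌋ + 1 := by
    rw [Int.card_Icc, Int.toNat_of_nonneg (by linarith)]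
    ring
  have h3 : ((Finset.Icc (-⌊P⌋) ⌊P⌋).card : ℝ) = 2 * (⌊P⌋ : ℝ) + 1 := by exact_mod_cast h2
  have h4 : (⌊P⌋ : ℝ) ≤ P := Int.floor_le P
  have h5 : (((Finset.Icc (-⌊P⌋) ⌊P⌋).filter p).card : ℝ) ≤ ((Finset.Icc (-⌊P⌋) ⌊P⌋).card : ℝ) := by
    exact_mod_cast h1
  linarith

theorem lam_le {m N : ℕ} [NeZero N] {T : ℕ → Finset (ZM m)} {D : Set (V m)}
    (hS : SysZ m N T D) {F : Mat m → VN m N → ℂ} {lam : ℕ → ℂ} (hF : HecA m N T F lam)
    (hN : NZ F) {C : ℝ} (hm : 1 ≤ m) (hC : ∀ n : ℕ, 1 ≤ n → ((T n).card : ℝ) ≤ C * (n : ℝ) ^ m)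
    {n : ℕ} (hn : 1 ≤ n) : ‖lam n‖ ≤ max 1 (2 * C) * (n : ℝ) ^ m := by
  have hl := Pool.Agent.H31.ZN.lam_bd hS hF hN hC hn
  have hn0 : 0 < n := by omega
  have hn1 : (1 : ℝ) ≤ n := by exact_mod_cast hn0
  have hm1 : (1 : ℝ) ≤ m := by exact_mod_cast hm
  have h1 : ‖(n : ℂ) ^ (((m : ℂ) - 1) / 2)‖ = (n : ℝ) ^ (((m : ℝ) - 1) / 2) := by
    rw [Complex.norm_natCast_cpow_of_pos hn0]
    congr 1
    rw [show (((m : ℂ) - 1) / 2) = ((((m : ℝ) - 1) / 2 : ℝ) : ℂ) by push_cast; ring,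
      Complex.ofReal_re]
  have h2 : (1 : ℝ) ≤ (n : ℝ) ^ (((m : ℝ) - 1) / 2) := Real.one_le_rpow hn1 (by linarith)
  rw [norm_mul, h1] at hl
  calc ‖lam n‖ = 1 * ‖lam n‖ := (one_mul _).symm
    _ ≤ (n : ℝ) ^ (((m : ℝ) - 1) / 2) * ‖lam n‖ := mul_le_mul_of_nonneg_right h2 (norm_nonneg _)
    _ ≤ _ := hl
    _ ≤ _ := mul_le_mul_of_nonneg_right (le_max_right _ _) (by positivity)

/-- the sum of the weights -/
theorem wsum (hLSF : T_LSF) (m : ℕ) (ε : ℝ) (hm : 1 ≤ m) (hε : 0 < ε) : ∃ C : ℝ, 0 < C ∧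
    ∀ (N : ℕ) [NeZero N] (T : ℕ → Finset (ZM m)) (D : Set (V m)), SysZ m N T D →
    ∀ P : ℝ, 1 ≤ P → ∀ (S : Type) [Fintype S] [DecidableEq S] (F : S → Mat m → VN m N → ℂ)
      (lam : S → ℕ → ℂ) (W : S → ℝ), Fam T D P F lam W → (∀ i, lam i 1 = 1) →
      2 * P * ∑ i, W i ≤ C * ((N : ℝ) * P) ^ ε * ((N : ℝ) ^ m * P ^ (m ^ 2)) := by
  obtain ⟨C, hC, h⟩ := hLSF m 1 ε hm le_rfl hε
  refine ⟨C, hC, ?_⟩
  intro N _ T D hS P hP S _ _ F lam W hF h1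
  have hN1 : (1 : ℝ) ≤ N := by exact_mod_cast (NeZero.one_le (n := N))
  have hP0 : 0 < P := by linarith
  have h2 := h N T D hS P hP S F lam W hF 0 (by
    rw [pow_zero]
    calc (1 : ℝ) = 1 * 1 := (one_mul _).symm
      _ ≤ N * P ^ m := mul_le_mul hN1 (one_le_pow₀ hP) zero_le_one (by positivity))
    (fun _ => 1) (fun _ => by simp) 0 0 le_rfl zero_le_one
  have hB : Bk 0 = {1} := by
    unfold Bk
    rfl
  have hDB : ∀ i (s : ℂ), DB (lam i) (fun _ => 1) 0 s = 1 := by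
    intro i s
    unfold DB
    rw [hB, Finset.sum_singleton, h1 i]
    simp
  simp only [hDB] at h2
  have h3 : ∀ i, ENNReal.ofReal (W i) * ∫⁻ _t in Set.Icc (-P) P, ENNReal.ofReal (‖(1 : ℂ)‖ ^ 2) =
      ENNReal.ofReal (W i * (2 * P)) := by
    intro i
    rw [norm_one, one_pow, ENNReal.ofReal_one, lintegral_one, Measure.restrict_apply_univ,
      Real.volume_Icc, ← ENNReal.ofReal_mul (hF.nn i)]
    congr 1
    ring
  rw [Finset.sum_congr rfl (fun i _ => h3 i), ← ENNReal.ofReal_sum_of_nonneg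
    (fun i _ => mul_nonneg (hF.nn i) (by linarith))] at h2
  have h4 := (ENNReal.ofReal_le_ofReal_iff (by positivity)).1 h2
  rw [← Finset.sum_mul] at h4
  calc 2 * P * ∑ i, W i = (∑ i, W i) * (2 * P) := by ring
    _ ≤ _ := h4
    _ = _ := by simp

theorem pf_Z1 (hEUL : Pool.Agent.H27.ZF.T_EUL) (hLSF : T_LSF) (hBS : T_BS) (hBD : T_BD)
    (hBL : T_BL) (hNZR : Pool.Agent.H27.ZF.T_NZR) : T_Z1 := by
  classical
  intro m d0 hm hd0
  obtain ⟨d, hd, hd2, hdd⟩ : ∃ d : ℝ, 0 < d ∧ d ≤ 1 / 2 ∧ d ≤ d0 :=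
    ⟨min d0 (1 / 2), lt_min hd0 (by norm_num), min_le_right _ _, min_le_left _ _⟩
  obtain ⟨CT, hCT0, hCT⟩ := Pool.Agent.H27.L1.H34.GZ.a_TNZ m hm
  obtain ⟨c, k0, B, Q0, hc, hk0, hB, hQ0, hNZ⟩ :=
    hNZR m d (max 1 (2 * CT)) hm hd hd2 (le_max_left _ _)
  obtain ⟨CF, hCF, hWS⟩ := wsum hLSF m c hm hc
  obtain ⟨CS, hCS, hS'⟩ := hBS m c hm hc
  obtain ⟨CD, hCD, hD'⟩ := hBD m (B + 1) c hm (by linarith) hc
  obtain ⟨CL, hCL, hL'⟩ := hBL m (d / 2) (B + 1) c hm (by positivity) (by linarith) (by linarith) hc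
  have hQ00 : 0 < Q0 := by linarith
  refine ⟨c, 3 * CS + CD + CL + 2 * CF * Q0 ^ (2 * c), hc, by positivity, ?_⟩
  intro N _ T D hS P hP S _ _ F lam W hF L hL
  have hN1 : (1 : ℝ) ≤ N := by exact_mod_cast (NeZero.one_le (n := N))
  have hN0 : (0 : ℝ) < N := by linarith
  have hP0 : 0 < P := by linarith
  have hmR : (1 : ℝ) ≤ m := by exact_mod_cast hm
  have hnz : ∀ i, NZ (F i) := fun i => Pool.Agent.H69.ZN.nz_of_one hS (nU_of_orthn hF.orth i)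
  have hE : ∀ i, ∃ q : ℕ → ℕ → ℂ, Eul m (lam i) q := fun i =>
    hEUL m N T D hS (F i) (lam i) (hF.cus i).1.toHecA (hnz i)
  have hl1 : ∀ i, lam i 1 = 1 := fun i => by
    obtain ⟨q, hq⟩ := hE i
    exact hq.one
  obtain ⟨Q, hQ⟩ : ∃ Q : ℝ, Q = (N : ℝ) * P ^ m := ⟨_, rfl⟩
  have hPm : 1 ≤ P ^ m := one_le_pow₀ hP
  have hQ1 : 1 ≤ Q := by
    rw [hQ]
    calc (1 : ℝ) = 1 * 1 := (one_mul _).symm
      _ ≤ N * P ^ m := mul_le_mul hN1 hPm zero_le_one (by positivity)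
  have hQp : 0 < Q := by linarith
  have hNP : ((N : ℝ) * P) ^ c ≤ Q ^ c := by
    refine Real.rpow_le_rpow (by positivity) ?_ hc.le
    rw [hQ]
    refine mul_le_mul_of_nonneg_left ?_ hN0.le
    calc P = P ^ 1 := (pow_one _).symm
      _ ≤ P ^ m := pow_le_pow_right₀ hP hm
  have hQm : (N : ℝ) ^ m * P ^ (m ^ 2) = Q ^ (m : ℝ) := by
    rw [Real.rpow_natCast, hQ, mul_pow, ← pow_mul, sq]
  have hsz : ∀ C x : ℝ, 0 ≤ C → C * ((N : ℝ) * P) ^ c * ((N : ℝ) ^ m * P ^ (m ^ 2)) / Q ^ x ≤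
      C * Q ^ ((m : ℝ) + c - x) := by
    intro C x hC
    rw [hQm, div_eq_mul_inv, ← Real.rpow_neg hQp.le]
    calc C * ((N : ℝ) * P) ^ c * Q ^ (m : ℝ) * Q ^ (-x) ≤ C * Q ^ c * Q ^ (m : ℝ) * Q ^ (-x) := by
          gcongr
      _ = C * Q ^ ((m : ℝ) + c - x) := by
          rw [mul_assoc, mul_assoc, ← Real.rpow_add hQp, ← Real.rpow_add hQp]
          congr 2
          ring
  rw [← hQ]
  rcases le_or_gt Q0 Q with hQQ | hQQ
  · -- large conductor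
    have hA1 : 1 ≤ Q ^ c := Real.one_le_rpow hQ1 hc.le
    have hA2 : 1 ≤ Q ^ (2 * c) := Real.one_le_rpow hQ1 (by linarith)
    have eS := hS' N T D hS P hP S F lam W hF (Q ^ (2 * c)) hA2
    have eD := hD' N T D hS P hP S F lam W hF (k0 * Real.log Q) (Q ^ (1 / (4 * (m : ℝ)))) (Q ^ c) hA1
    have eL := hL' N T D hS P hP S F lam W hF L hL (Q ^ c) hA1
    rw [← hQ] at eS eD
    have hp2 : (Q ^ c) ^ 2 = Q ^ (2 * c) := by
      rw [← Real.rpow_natCast, ← Real.rpow_mul hQp.le]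
      congr 1
      push_cast
      ring
    have hp4 : (Q ^ c) ^ 4 = Q ^ (4 * c) := by
      rw [← Real.rpow_natCast, ← Real.rpow_mul hQp.le]
      congr 1
      push_cast
      ring
    rw [hp2] at eD
    rw [hp4] at eL
    have fS := eS.trans (hsz CS (2 * c) hCS.le)
    have fD := eD.trans (hsz CD (2 * c) hCD.le)
    have fL := eL.trans (hsz CL (4 * c) hCL.le)
    have g1 : Q ^ ((m : ℝ) + c - 2 * c) = Q ^ ((m : ℝ) - c) := by
      congr 1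
      ring
    have g2 : Q ^ ((m : ℝ) + c - 4 * c) ≤ Q ^ ((m : ℝ) - c) :=
      Real.rpow_le_rpow_of_exponent_le hQ1 (by linarith)
    rw [g1] at fS fD
    have fL' := fL.trans (mul_le_mul_of_nonneg_left g2 hCL.le)
    have key : ∀ i, W i * (((Finset.Icc (-⌊P⌋) ⌊P⌋).filter (fun k : ℤ => ∃ s : ℂ,
        1 / 2 + d0 ≤ s.re ∧ |s.im - k| ≤ 1 ∧ L i s = 0)).card : ℝ) ≤
        3 * ((if Sq (lam i) Q (Q ^ (2 * c)) then 0 else W i) * P) +
        W i * (((Finset.Icc (-⌊P⌋) ⌊P⌋).filter (fun k : ℤ => ∃ s : ℂ, 1 / 2 ≤ s.re ∧ s.re ≤ B + 1 ∧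
          |s.im - k| ≤ B + 1 ∧ ¬ Dp m (lam i) Q (k0 * Real.log Q) (Q ^ (1 / (4 * (m : ℝ))))
            (Q ^ c) s)).card : ℝ) +
        W i * (((Finset.Icc (-⌊P⌋) ⌊P⌋).filter (fun k : ℤ => ∃ s : ℂ, 1 / 2 + d / 2 ≤ s.re ∧
          s.re ≤ B + 1 ∧ |s.im - k| ≤ B + 1 ∧ Q ^ c < ‖L i s‖)).card : ℝ) := by
      intro i
      have hW := hF.nn i
      by_cases hSq : Sq (lam i) Q (Q ^ (2 * c))
      · rw [if_pos hSq, zero_mul, mul_zero, zero_add, ← mul_add]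
        refine mul_le_mul_of_nonneg_left ?_ hW
        rw [← Nat.cast_add]
        refine Nat.cast_le.2 (le_trans (Finset.card_le_card ?_) (Finset.card_union_le _ _))
        intro k hk
        rw [Finset.mem_filter] at hk
        obtain ⟨hk1, s0, hs0, hs1, hs2⟩ := hk
        rw [Finset.mem_union, Finset.mem_filter, Finset.mem_filter]
        by_contra hcon
        push Not at hcon
        obtain ⟨hc1, hc2⟩ := hcon
        have hc1 := hc1 hk1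
        have hc2 := hc2 hk1
        obtain ⟨q, hq⟩ := hE i
        refine hNZ (lam i) q (L i) Q s0.im hQQ hq
          (fun n hn => lam_le hS (hF.cus i).1.toHecA (hnz i) hm (hCT T hS.reps) hn) (hL i).1 ?_ hSq
          ?_ s0 (by linarith) rfl hs2
        · intro s hs
          have h1 := (hL i).2 s hs
          have h2 : (fun n : ℕ => if 1 ≤ n ∧ n.Coprime 1 then lam i n * (n : ℂ) ^ (-s) else 0) =
              fun n : ℕ => if 1 ≤ n then lam i n * (n : ℂ) ^ (-s) else 0 := by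
            funext n
            have h3 : (1 ≤ n ∧ n.Coprime 1) ↔ 1 ≤ n :=
              ⟨fun h => h.1, fun h => ⟨h, Nat.coprime_one_right n⟩⟩
            simp only [h3]
          rw [h2] at h1
          exact h1
        · intro s h1 h2 h3
          have h4 : |s.im - k| ≤ B + 1 := by
            calc |s.im - k| = |(s.im - s0.im) + (s0.im - k)| := by ring_nf
              _ ≤ |s.im - s0.im| + |s0.im - k| := abs_add_le _ _
              _ ≤ B + 1 := by linarith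
          exact ⟨hc2 s h1 (by linarith) h4, hc1 s (by linarith) (by linarith) h4⟩
      · rw [if_neg hSq]
        have h1 := card_le hP (fun k : ℤ => ∃ s : ℂ, 1 / 2 + d0 ≤ s.re ∧ |s.im - k| ≤ 1 ∧ L i s = 0)
        have h2 := mul_le_mul_of_nonneg_left h1 hW
        refine h2.trans ?_
        have h3 : 0 ≤ W i * (((Finset.Icc (-⌊P⌋) ⌊P⌋).filter (fun k : ℤ => ∃ s : ℂ, 1 / 2 ≤ s.re ∧
          s.re ≤ B + 1 ∧
          |s.im - k| ≤ B + 1 ∧ ¬ Dp m (lam i) Q (k0 * Real.log Q) (Q ^ (1 / (4 * (m : ℝ))))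
            (Q ^ c) s)).card : ℝ) := by positivity
        have h4 : 0 ≤ W i * (((Finset.Icc (-⌊P⌋) ⌊P⌋).filter (fun k : ℤ => ∃ s : ℂ,
          1 / 2 + d / 2 ≤ s.re ∧
          s.re ≤ B + 1 ∧ |s.im - k| ≤ B + 1 ∧ Q ^ c < ‖L i s‖)).card : ℝ) := by positivity
        linarith
    refine (Finset.sum_le_sum fun i _ => key i).trans ?_
    rw [Finset.sum_add_distrib, Finset.sum_add_distrib, ← Finset.mul_sum]
    have hz : 0 ≤ 2 * CF * Q0 ^ (2 * c) * Q ^ ((m : ℝ) - c) := by positivity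
    calc _ ≤ 3 * (CS * Q ^ ((m : ℝ) - c)) + CD * Q ^ ((m : ℝ) - c) + CL * Q ^ ((m : ℝ) - c) := by
          gcongr
      _ ≤ _ := by
          rw [add_mul, add_mul, add_mul]
          linarith
  · -- small conductor
    have h1 := hWS N T D hS P hP S F lam W hF hl1
    have h2 := hsz CF 0 hCF.le
    rw [Real.rpow_zero, div_one, sub_zero] at h2
    have h3 : ∑ i, W i * (((Finset.Icc (-⌊P⌋) ⌊P⌋).filter (fun k : ℤ => ∃ s : ℂ,
        1 / 2 + d0 ≤ s.re ∧ |s.im - k| ≤ 1 ∧ L i s = 0)).card : ℝ) ≤ ∑ i, W i * (3 * P) :=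
      Finset.sum_le_sum fun i _ => mul_le_mul_of_nonneg_left (card_le hP _) (hF.nn i)
    rw [← Finset.sum_mul] at h3
    have h4 : Q ^ ((m : ℝ) + c) ≤ Q0 ^ (2 * c) * Q ^ ((m : ℝ) - c) := by
      have h5 : Q ^ ((m : ℝ) + c) = Q ^ (2 * c) * Q ^ ((m : ℝ) - c) := by
        rw [← Real.rpow_add hQp]
        congr 1
        ring
      rw [h5]
      refine mul_le_mul_of_nonneg_right ?_ (by positivity)
      exact Real.rpow_le_rpow hQp.le hQQ.le (by linarith)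
    have h6 : 2 * P * ∑ i, W i ≤ CF * (Q0 ^ (2 * c) * Q ^ ((m : ℝ) - c)) :=
      h1.trans (h2.trans (mul_le_mul_of_nonneg_left h4 hCF.le))
    have h7 : (∑ i, W i) * (3 * P) ≤ 2 * (CF * (Q0 ^ (2 * c) * Q ^ ((m : ℝ) - c))) := by
      have h8 : 0 ≤ P * ∑ i, W i := mul_nonneg hP0.le (Finset.sum_nonneg fun i _ => hF.nn i)
      nlinarith
    refine h3.trans (h7.trans ?_)
    have h9 : 0 ≤ (3 * CS + CD + CL) * Q ^ ((m : ℝ) - c) := by positivity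
    calc 2 * (CF * (Q0 ^ (2 * c) * Q ^ ((m : ℝ) - c))) ≤
          (3 * CS + CD + CL) * Q ^ ((m : ℝ) - c) +
            2 * (CF * (Q0 ^ (2 * c) * Q ^ ((m : ℝ) - c))) := by linarith
      _ = _ := by ring

end Pool.Agent.H87.ZF
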