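import Pool.Agent.H87.ZF.Z1T
import Pool.Agent.H55.ZF.All
import Pool.Agent.H47.ZF.BDT
import Pool.Agent.H47.ZF.BLT

/-!
Board tzf (MP_52e316_nt): row Z1T, closed.
-/

set_option autoImplicit false

namespace Pool.Agent.H87.TZF

open Pool.Agent.H55.ZF

theorem c_BDT : Pool.Agent.H47.TZF.T_BDT := Pool.Agent.H47.TZF.pf_BDT c_LSF Pool.Agent.H1.ZF.pf_SOB

theorem c_BLT : Pool.Agent.H47.TZF.T_BLT := Pool.Agent.H47.TZF.pf_BLT c_LSF

/-- one level, one window: few pairs of a form and an integer with small or large values -/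
theorem c_Z1T : Pool.Agent.H31.CZ.T_Z1T := pf_Z1C pf_EUL c_LSF c_BS c_BDT c_BLT c_NZL

end Pool.Agent.H87.TZF
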