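import Pool.Agent.H87.ZF.Z1
import Pool.Agent.H78.ZF.TL

/-!
Board tzf (MP_52e316_nt): two-sided bounds near one height, for one form at any level.
-/

set_option autoImplicit false

namespace Pool.Agent.H87.ZF

open MeasureTheory Pool.Agent.H27.L1.H34.GM Pool.Agent.H27.L1.H34.GZ Pool.Agent.H27.L1.H34.GU
  Pool.Agent.H27.L1.H34.GA
open Pool.Agent.H27.ZF

/-- one form, near one height: small sums of squares, small Dirichlet polynomials and a small L-function give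
two-sided bounds to the right of the critical line -/
theorem loc_form (hEUL : Pool.Agent.H27.ZF.T_EUL) (hNZL : Pool.Agent.H78.ZF.T_NZL) (m : ℕ) (d0 e : ℝ)
    (hm : 1 ≤ m) (hd0 : 0 < d0) (he : 0 < e) :
    ∃ d c k0 B Q0 : ℝ, 0 < d ∧ d ≤ 1 / 2 ∧ d ≤ d0 ∧ 0 < c ∧ c ≤ e ∧ 0 < k0 ∧ 1 ≤ B ∧ 1 ≤ Q0 ∧
    ∀ (N : ℕ) [NeZero N] (T : ℕ → Finset (ZM m)) (D : Set (V m)), SysZ m N T D →
    ∀ (F : Mat m → VN m N → ℂ) (lam : ℕ → ℂ), CusB m N T F lam → NZ F →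
    ∀ L : ℂ → ℂ, IsL m 1 lam L → ∀ Q t : ℝ, Q0 ≤ Q → Sq lam Q (Q ^ (2 * c)) →
    (∀ s : ℂ, 1 / 2 ≤ s.re → s.re ≤ B → |s.im - t| ≤ B →
      Dp m lam Q (k0 * Real.log Q) (Q ^ (1 / (4 * (m : ℝ)))) (Q ^ c) s) →
    (∀ s : ℂ, 1 / 2 + d / 2 ≤ s.re → s.re ≤ B → |s.im - t| ≤ B → ‖L s‖ ≤ Q ^ c) →
    ∀ s : ℂ, 1 / 2 + d0 ≤ s.re → |s.im - t| ≤ 1 → Q ^ (-e) ≤ ‖L s‖ ∧ ‖L s‖ ≤ Q ^ e := by
  obtain ⟨d, hd, hd2, hdd⟩ : ∃ d : ℝ, 0 < d ∧ d ≤ 1 / 2 ∧ d ≤ d0 :=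
    ⟨min d0 (1 / 2), lt_min hd0 (by norm_num), min_le_right _ _, min_le_left _ _⟩
  obtain ⟨CT, hCT0, hCT⟩ := Pool.Agent.H27.L1.H34.GZ.a_TNZ m hm
  obtain ⟨σ2, hσ2, hFAR⟩ := Pool.Agent.H31.ZN.c_FAR m hm
  obtain ⟨c, k0, B, Q1, hc, hk0, hB, -, hQ1', hNZ⟩ :=
    hNZL m d (max 1 (2 * CT)) e σ2 hm hd hd2 (le_max_left _ _) he
  obtain ⟨a, ha, hac, hae⟩ : ∃ a : ℝ, 0 < a ∧ a ≤ c ∧ a ≤ e :=
    ⟨min c e, lt_min hc he, min_le_left _ _, min_le_right _ _⟩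
  obtain ⟨Q0, hQ0, hQ01, hQ02⟩ : ∃ Q0 : ℝ, 1 ≤ Q0 ∧ Q1 ≤ Q0 ∧ (2 : ℝ) ^ (1 / e) ≤ Q0 :=
    ⟨max Q1 (2 ^ (1 / e)), hQ1'.trans (le_max_left _ _), le_max_left _ _, le_max_right _ _⟩
  obtain ⟨B', hB', hBB, hB2⟩ : ∃ B' : ℝ, 1 ≤ B' ∧ B + 1 ≤ B' ∧ σ2 ≤ B' :=
    ⟨max (B + 1) σ2, hσ2.trans (le_max_right _ _), le_max_left _ _, le_max_right _ _⟩
  refine ⟨d, a, k0, B', Q0, hd, hd2, hdd, ha, hae, hk0, hB', hQ0, ?_⟩
  intro N _ T D hS F lam hF hnz L hL Q t hQQ hSq hDp hLb s0 hs0 hs1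
  have hQ1 : 1 ≤ Q := hQ0.trans hQQ
  have hQp : 0 < Q := by linarith
  have h2Q : 2 ≤ Q ^ e := by
    have h1 : ((2 : ℝ) ^ (1 / e)) ^ e ≤ Q ^ e :=
      Real.rpow_le_rpow (by positivity) (hQ02.trans hQQ) he.le
    rw [← Real.rpow_mul (by norm_num), one_div, inv_mul_cancel₀ he.ne', Real.rpow_one] at h1
    exact h1
  have h2Q' : Q ^ (-e) ≤ 1 / 2 := by
    rw [Real.rpow_neg hQp.le, one_div]
    exact inv_anti₀ (by norm_num) h2Q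
  have hae' : Q ^ a ≤ Q ^ e := Real.rpow_le_rpow_of_exponent_le hQ1 hae
  have hac' : Q ^ a ≤ Q ^ c := Real.rpow_le_rpow_of_exponent_le hQ1 hac
  have ha2 : Q ^ (2 * a) ≤ Q ^ (2 * c) := Real.rpow_le_rpow_of_exponent_le hQ1 (by linarith)
  rcases le_or_gt s0.re σ2 with hre | hre
  · have hup := hLb s0 (by linarith) (by linarith) (by linarith)
    obtain ⟨q, hq⟩ := hEUL m N T D hS F lam hF.toHecA hnz
    refine ⟨?_, hup.trans hae'⟩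
    refine hNZ lam q L Q s0.im (hQ01.trans hQQ) hq
      (fun n hn => lam_le hS hF.toHecA hnz hm (hCT T hS.reps) hn) hL.1 ?_ ?_
      ?_ s0 (by linarith) hre rfl
    · intro s hs
      have h1 := hL.2 s hs
      have h2 : (fun n : ℕ => if 1 ≤ n ∧ n.Coprime 1 then lam n * (n : ℂ) ^ (-s) else 0) =
          fun n : ℕ => if 1 ≤ n then lam n * (n : ℂ) ^ (-s) else 0 := by
        funext n
        have h3 : (1 ≤ n ∧ n.Coprime 1) ↔ 1 ≤ n :=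
          ⟨fun h => h.1, fun h => ⟨h, Nat.coprime_one_right n⟩⟩
        simp only [h3]
      rw [h2] at h1
      exact h1
    · intro r hr
      exact (hSq r hr).trans (mul_le_mul_of_nonneg_right ha2 (by positivity))
    · intro s h1 h2 h3
      have h4 : |s.im - t| ≤ B' := by
        calc |s.im - t| = |(s.im - s0.im) + (s0.im - t)| := by ring_nf
          _ ≤ |s.im - s0.im| + |s0.im - t| := abs_add_le _ _
          _ ≤ B' := by linarith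
      refine ⟨(hLb s h1 (by linarith) h4).trans hac', ?_⟩
      intro j k r hj hk hkm hjQ hrQ
      exact (hDp s (by linarith) (by linarith) h4 j k r hj hk hkm hjQ hrQ).trans
        (mul_le_mul_of_nonneg_right hac' (by positivity))
  · have h1 := hFAR N T D hS F lam hF hnz L hL s0 hre.le
    constructor
    · have h4 : ‖(1 : ℂ)‖ ≤ ‖L s0‖ + ‖L s0 - 1‖ := by
        calc ‖(1 : ℂ)‖ = ‖L s0 - (L s0 - 1)‖ := by ring_nf
          _ ≤ _ := norm_sub_le _ _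
      rw [norm_one] at h4
      linarith
    · calc ‖L s0‖ = ‖(L s0 - 1) + 1‖ := by ring_nf
        _ ≤ ‖L s0 - 1‖ + ‖(1 : ℂ)‖ := norm_add_le _ _
        _ ≤ 3 / 2 := by rw [norm_one]; linarith
        _ ≤ Q ^ e := by linarith

end Pool.Agent.H87.ZF
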