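import Pool.Agent.H27.ZF.TA

/-!
Board zf (MP_52e316_nt): row NZR (second copy), no zeros.
-/

set_option autoImplicit false

namespace Pool.Agent.H87.ZF

open Pool.Agent.H27.ZF

/-- the product of the inverse factors is entire -/
theorem diff_prod (m : ℕ) (q : ℕ → ℕ → ℂ) (S : Finset ℕ) (hS : ∀ p ∈ S, p.Prime) :
    Differentiable ℂ (fun s : ℂ => ∏ p ∈ S, qv m (q p) ((p : ℂ) ^ (-s))) := by
  have h : ∀ p ∈ S, Differentiable ℂ (fun s : ℂ => qv m (q p) ((p : ℂ) ^ (-s))) := by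
    intro p hp
    have hp0 : (p : ℂ) ≠ 0 := by exact_mod_cast (hS p hp).ne_zero
    unfold qv
    refine Differentiable.fun_sum fun j _ => ?_
    refine Differentiable.const_mul ?_ _
    refine Differentiable.pow ?_ j
    exact (differentiable_id.neg).const_cpow (Or.inl hp0)
  exact Differentiable.fun_finsetProd h

/-- absolute convergence -/
theorem summ {m : ℕ} {C0 : ℝ} {lam : ℕ → ℂ} (hlam : ∀ n : ℕ, 1 ≤ n → ‖lam n‖ ≤ C0 * (n : ℝ) ^ m)
    {σ : ℝ} (hσ : (m : ℝ) + 4 ≤ σ) :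
    Summable (fun n : ℕ => if 1 ≤ n then ‖lam n‖ * (n : ℝ) ^ (-σ) else 0) := by
  have h1 : Summable (fun n : ℕ => C0 * (n : ℝ) ^ (-(2 : ℝ))) :=
    (Real.summable_nat_rpow.2 (by norm_num)).mul_left C0
  refine Summable.of_nonneg_of_le (fun n => ?_) (fun n => ?_) h1
  · split_ifs
    · positivity
    · exact le_rfl
  · split_ifs with h
    · have hn : (1 : ℝ) ≤ n := by exact_mod_cast h
      have hn0 : (0 : ℝ) < n := by linarith
      have hC : 0 ≤ C0 := by
        have h2 := hlam 1 le_rfl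
        have h3 := norm_nonneg (lam 1)
        simp at h2
        linarith
      calc ‖lam n‖ * (n : ℝ) ^ (-σ) ≤ (C0 * (n : ℝ) ^ m) * (n : ℝ) ^ (-σ) :=
            mul_le_mul_of_nonneg_right (hlam n h) (by positivity)
        _ = C0 * (n : ℝ) ^ ((m : ℝ) + -σ) := by
            rw [Real.rpow_add hn0, Real.rpow_natCast, mul_assoc]
        _ ≤ C0 * (n : ℝ) ^ (-(2 : ℝ)) := by
            refine mul_le_mul_of_nonneg_left ?_ hC
            exact Real.rpow_le_rpow_of_exponent_le hn (by linarith)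
    · rcases Nat.eq_zero_or_pos n with h0 | h0
      · subst h0
        simp
      · exact absurd h0 h

theorem pf_NZR (hHTC : T_HTC) (hEPR : T_EPR) (hTAI : T_TAI) (hPRD : T_PRD) : T_NZR := by
  intro m d C0 hm hd hd2 hC0
  have hmR : (1 : ℝ) ≤ m := by exact_mod_cast hm
  obtain ⟨w, hw0, hw1, hH⟩ := hHTC 1 ((m : ℝ) + 9 / 2 - d) ((m : ℝ) + 9 / 2 - d / 2) one_pos
    (by linarith) (by linarith)
  obtain ⟨C1, hC1, hT⟩ := hTAI m C0 hC0
  obtain ⟨cp, hcp, hP⟩ := hPRD m (d / 2) C0 hm (by linarith) (by linarith) hC0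
  obtain ⟨η, hη⟩ : ∃ η : ℝ, η = w / (16 * m) := ⟨_, rfl⟩
  have hη0 : 0 < η := by
    rw [hη]
    positivity
  obtain ⟨k0, Q1, hk0, hQ1, hP⟩ := hP η hη0
  obtain ⟨c, hc0, hcc, hcη⟩ : ∃ c : ℝ, 0 < c ∧ c ≤ cp ∧ c ≤ η :=
    ⟨min cp η, lt_min hcp hη0, min_le_left _ _, min_le_right _ _⟩
  obtain ⟨Q2, hQ2⟩ : ∃ Q2 : ℝ, Q2 = (4 * C1 + 1) ^ (8 * m / w) := ⟨_, rfl⟩
  refine ⟨c, k0, 2 * m + 10, max Q1 Q2, hc0, hk0, by linarith, le_max_of_le_left hQ1, ?_⟩
  intro lam q L Q t hQ hE hlam hL hLs hSq hDp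
  have hQQ1 : Q1 ≤ Q := (le_max_left _ _).trans hQ
  have hQQ2 : Q2 ≤ Q := (le_max_right _ _).trans hQ
  have hQ1' : 1 ≤ Q := hQ1.trans hQQ1
  have hQ0 : 0 < Q := by linarith
  obtain ⟨z, hz⟩ : ∃ z : ℝ, z = Q ^ (1 / (4 * (m : ℝ))) := ⟨_, rfl⟩
  rw [← hz] at hDp
  have hz1 : 1 ≤ z := by
    rw [hz]
    exact Real.one_le_rpow hQ1' (by positivity)
  have hz0 : 0 < z := by linarith
  have hzQ : z ^ (4 * m) ≤ Q := by
    rw [hz, ← Real.rpow_natCast, ← Real.rpow_mul hQ0.le]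
    push_cast
    rw [one_div, inv_mul_cancel₀ (by positivity), Real.rpow_one]
  -- the size of `Q`
  have hbig : 4 * C1 + 1 ≤ Q ^ (w / (8 * m)) := by
    have h1 : Q2 ^ (w / (8 * m)) ≤ Q ^ (w / (8 * m)) :=
      Real.rpow_le_rpow (by rw [hQ2]; positivity) hQQ2 (by positivity)
    refine le_trans (le_of_eq ?_) h1
    rw [hQ2, ← Real.rpow_mul (by positivity)]
    rw [show 8 * (m : ℝ) / w * (w / (8 * m)) = 1 by field_simp, Real.rpow_one]
  have hzbig : 4 * C1 + 1 ≤ z := by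
    refine hbig.trans ?_
    rw [hz]
    refine Real.rpow_le_rpow_of_exponent_le hQ1' ?_
    rw [div_le_div_iff₀ (by positivity) (by positivity)]
    nlinarith
  obtain ⟨n, hn⟩ : ∃ n : ℕ, n = ⌊z⌋₊ := ⟨_, rfl⟩
  have hn1 : 1 ≤ n := by
    rw [hn]
    exact Nat.le_floor (by exact_mod_cast hz1)
  have hn0 : (0 : ℝ) < n := by exact_mod_cast hn1
  have hnz : z ≤ 2 * n := by
    have h1 := Nat.lt_floor_add_one z
    rw [← hn] at h1
    have h2 : (1 : ℝ) ≤ n := by exact_mod_cast hn1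
    linarith
  obtain ⟨S, hS⟩ : ∃ S : Finset ℕ, S = (Finset.range (n + 1)).filter Nat.Prime := ⟨_, rfl⟩
  have hSp : ∀ p ∈ S, p.Prime := by
    intro p hp
    rw [hS] at hp
    exact (Finset.mem_filter.1 hp).2
  obtain ⟨E, hEd⟩ : ∃ E : ℂ → ℂ, E = fun s => ∏ p ∈ S, qv m (q p) ((p : ℂ) ^ (-s)) := ⟨_, rfl⟩
  have hEdiff : Differentiable ℂ E := by
    rw [hEd]
    exact diff_prod m q S hSp
  -- far to the right
  obtain ⟨M1, hM1⟩ : ∃ M1 : ℝ, M1 = C1 / n := ⟨_, rfl⟩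
  have hM10 : 0 < M1 := by
    rw [hM1]
    positivity
  have hfar : ∀ s : ℂ, (m : ℝ) + 4 ≤ s.re → ‖E s * L s - 1‖ ≤ M1 := by
    intro s hs
    have h1 := hEPR m lam q s S hE hSp (summ hlam hs)
    have h2 : (∑' k : ℕ, if 1 ≤ k then lam k * (k : ℂ) ^ (-s) else 0) = L s :=
      (hLs s (by linarith)).tsum_eq
    rw [h2] at h1
    have h3 := hT lam hE.one hlam n hn1 s hs
    rw [hEd]
    beta_reduce
    rw [h1, hM1, hS]
    exact h3
  -- near the critical line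
  obtain ⟨M3, hM3⟩ : ∃ M3 : ℝ, M3 = 2 * Q ^ (2 * η) := ⟨_, rfl⟩
  have hQη : 1 ≤ Q ^ (2 * η) := Real.one_le_rpow hQ1' (by positivity)
  have hM11 : M1 ≤ 2 * C1 / z := by
    rw [hM1, div_le_div_iff₀ hn0 hz0]
    nlinarith
  have hM12 : M1 < 1 := by
    refine hM11.trans_lt ?_
    rw [div_lt_one hz0]
    linarith
  have hM13 : M1 ≤ M3 := by
    rw [hM3]
    linarith
  have hSq' : Sq lam Q (Q ^ (2 * cp)) := by
    intro r hr
    refine (hSq r hr).trans (mul_le_mul_of_nonneg_right ?_ (by positivity))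
    exact Real.rpow_le_rpow_of_exponent_le hQ1' (by linarith)
  have hnear : ∀ s : ℂ, ‖s - (((m : ℝ) + 5 : ℝ) + t * Complex.I)‖ ≤ (m : ℝ) + 9 / 2 - d / 2 →
      ‖E s * L s - 1‖ ≤ M3 := by
    intro s hs
    have h1 := Complex.abs_re_le_norm (s - (((m : ℝ) + 5 : ℝ) + t * Complex.I))
    have h2 := Complex.abs_im_le_norm (s - (((m : ℝ) + 5 : ℝ) + t * Complex.I))
    have e1 : (s - (((m : ℝ) + 5 : ℝ) + t * Complex.I)).re = s.re - (m + 5) := by simp
    have e2 : (s - (((m : ℝ) + 5 : ℝ) + t * Complex.I)).im = s.im - t := by simp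
    rw [e1, abs_le] at h1
    rw [e2] at h2
    have h3 : 1 / 2 + d / 2 ≤ s.re := by linarith [h1.1]
    have h4 : s.re ≤ 2 * m + 10 := by linarith [h1.2]
    have h5 : |s.im - t| ≤ 2 * m + 10 := by linarith
    obtain ⟨h6, h7⟩ := hDp s h3 h4 h5
    have h8 : Dp m lam Q (k0 * Real.log Q) z (Q ^ cp) s := by
      intro j k r hj hk hkm hj2 hr
      refine (h7 j k r hj hk hkm hj2 hr).trans (mul_le_mul_of_nonneg_right ?_ (by positivity))
      exact Real.rpow_le_rpow_of_exponent_le hQ1' hcc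
    have h9 := hP lam q Q hQQ1 hE hlam hSq' z hzQ s h3 h8
    rw [← hn, ← hS] at h9
    have h10 : ‖E s * L s‖ ≤ Q ^ (2 * η) := by
      rw [norm_mul, hEd]
      beta_reduce
      calc ‖∏ p ∈ S, qv m (q p) ((p : ℂ) ^ (-s))‖ * ‖L s‖ ≤ Q ^ η * Q ^ c :=
            mul_le_mul h9 h6 (norm_nonneg _) (by positivity)
        _ ≤ Q ^ η * Q ^ η := mul_le_mul_of_nonneg_left
            (Real.rpow_le_rpow_of_exponent_le hQ1' hcη) (by positivity)
        _ = Q ^ (2 * η) := by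
            rw [← Real.rpow_add hQ0]
            congr 1
            ring
    calc ‖E s * L s - 1‖ ≤ ‖E s * L s‖ + ‖(1 : ℂ)‖ := norm_sub_le _ _
      _ ≤ Q ^ (2 * η) + 1 := by
          rw [norm_one]
          linarith
      _ ≤ M3 := by
          rw [hM3]
          linarith
  have hD : Differentiable ℂ (fun s => E s * L s - 1) := (hEdiff.mul hL).sub_const 1
  have hH' := hH (fun s => E s * L s - 1) (((m : ℝ) + 5 : ℝ) + t * Complex.I) M1 M3 hD hM10 hM13
    (fun s hs => by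
      refine hfar s ?_
      have h1 := Complex.abs_re_le_norm (s - (((m : ℝ) + 5 : ℝ) + t * Complex.I))
      have e1 : (s - (((m : ℝ) + 5 : ℝ) + t * Complex.I)).re = s.re - (m + 5) := by simp
      rw [e1, abs_le] at h1
      linarith [h1.1]) hnear
  -- the product is smaller than one
  have hlt : M1 ^ w * M3 ^ (1 - w) < 1 := by
    have h1 : M1 ^ w ≤ (2 * C1) * Q ^ (-(4 * η)) := by
      have h2 : M1 ^ w ≤ (2 * C1 / z) ^ w := Real.rpow_le_rpow hM10.le hM11 hw0.le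
      refine h2.trans ?_
      rw [Real.div_rpow (by positivity) hz0.le, div_eq_mul_inv]
      have h3 : (2 * C1) ^ w ≤ 2 * C1 := by
        calc (2 * C1) ^ w ≤ (2 * C1) ^ (1 : ℝ) :=
              Real.rpow_le_rpow_of_exponent_le (by linarith) hw1.le
          _ = 2 * C1 := Real.rpow_one _
      have h4 : (z ^ w)⁻¹ = Q ^ (-(4 * η)) := by
        rw [hz, ← Real.rpow_mul hQ0.le, ← Real.rpow_neg hQ0.le, hη]
        congr 1
        field_simp
        ring
      rw [h4]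
      exact mul_le_mul_of_nonneg_right h3 (by positivity)
    have h5 : M3 ^ (1 - w) ≤ 2 * Q ^ (2 * η) := by
      calc M3 ^ (1 - w) ≤ M3 ^ (1 : ℝ) :=
            Real.rpow_le_rpow_of_exponent_le (by rw [hM3]; linarith) (by linarith)
        _ = 2 * Q ^ (2 * η) := by rw [Real.rpow_one, hM3]
    have h6 : M1 ^ w * M3 ^ (1 - w) ≤ ((2 * C1) * Q ^ (-(4 * η))) * (2 * Q ^ (2 * η)) :=
      mul_le_mul h1 h5 (Real.rpow_nonneg (by rw [hM3]; positivity) _) (by positivity)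
    have h7 : ((2 * C1) * Q ^ (-(4 * η))) * (2 * Q ^ (2 * η)) = 4 * C1 * Q ^ (-(2 * η)) := by
      have h8 : Q ^ (-(4 * η)) * Q ^ (2 * η) = Q ^ (-(2 * η)) := by
        rw [← Real.rpow_add hQ0]
        congr 1
        ring
      calc ((2 * C1) * Q ^ (-(4 * η))) * (2 * Q ^ (2 * η)) =
            4 * C1 * (Q ^ (-(4 * η)) * Q ^ (2 * η)) := by ring
        _ = _ := by rw [h8]
    have h9 : 4 * C1 * Q ^ (-(2 * η)) < 1 := by
      have e : 2 * η = w / (8 * m) := by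
        rw [hη]
        field_simp
        ring
      rw [Real.rpow_neg hQ0.le, e, ← div_eq_mul_inv, div_lt_one (by positivity)]
      linarith
    linarith
  -- conclusion
  intro s hs hst
  have hlt1 : ‖E s * L s - 1‖ < 1 := by
    rcases le_or_gt s.re ((m : ℝ) + 5) with h | h
    · have h1 : ‖s - (((m : ℝ) + 5 : ℝ) + t * Complex.I)‖ ≤ (m : ℝ) + 9 / 2 - d := by
        have e : s - (((m : ℝ) + 5 : ℝ) + t * Complex.I) = ((s.re - (m + 5) : ℝ) : ℂ) := by
          apply Complex.ext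
          · simp
          · simp [hst]
        rw [e, Complex.norm_real, Real.norm_eq_abs, abs_le]
        constructor <;> linarith
      exact (hH' s h1).trans_lt hlt
    · exact (hfar s (by linarith)).trans_lt hM12
  intro h0
  rw [h0, mul_zero, zero_sub, norm_neg, norm_one] at hlt1
  exact lt_irrefl _ hlt1

end Pool.Agent.H87.ZF
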