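import Pool.Agent.H87.ZF.LF
import Pool.Agent.H47.ZF.TT
import Pool.Agent.H31.CZ.T

/-!
Board tzf (MP_52e316_nt): row Z1T, few pairs of a form and an integer with small or large values of the
twisted L-function.
-/

set_option autoImplicit false

namespace Pool.Agent.H87.TZF

open MeasureTheory Pool.Agent.H27.L1.H34.GM Pool.Agent.H27.L1.H34.GZ Pool.Agent.H27.L1.H34.GU
  Pool.Agent.H27.L1.H34.GA
open Pool.Agent.H27.ZF (Fam Dp Sq Bk T_LSF T_BS)
open Pool.Agent.H31.CT (Q3 Tw)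
open Pool.Agent.H47.TZF Pool.Agent.H87.ZF

theorem card_Wi {t0 H : ℝ} (hH : 1 ≤ H) (p : ℤ → Prop) [DecidablePred p] :
    (((Wi t0 H).filter p).card : ℝ) ≤ 3 * H := by
  have h1 : ((Wi t0 H).filter p).card ≤ (Wi t0 H).card := Finset.card_filter_le _ _
  have h5 : (((Wi t0 H).filter p).card : ℝ) ≤ ((Wi t0 H).card : ℝ) := by exact_mod_cast h1
  have h2 : ((Wi t0 H).card : ℝ) ≤ 2 * H + 1 := by
    unfold Wi
    rw [Int.card_Icc]
    have h6 : (((⌊t0 + H⌋ + 1 - ⌈t0 - H⌉).toNat : ℤ) : ℝ) = max ((⌊t0 + H⌋ : ℝ) + 1 - ⌈t0 - H⌉) 0 := by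
      rw [Int.toNat_eq_max]
      push_cast
      rfl
    have h7 : (((⌊t0 + H⌋ + 1 - ⌈t0 - H⌉).toNat : ℕ) : ℝ) =
        (((⌊t0 + H⌋ + 1 - ⌈t0 - H⌉).toNat : ℤ) : ℝ) := by push_cast; rfl
    rw [h7, h6]
    have h3 : (⌊t0 + H⌋ : ℝ) ≤ t0 + H := Int.floor_le _
    have h4 : t0 - H ≤ (⌈t0 - H⌉ : ℝ) := Int.le_ceil _
    refine max_le (by linarith) (by linarith)
  linarith

theorem sq_tw {lam lamG c : ℕ → ℂ} (hc : ∀ n, ‖c n‖ ≤ 1) (ht : ∀ n, 1 ≤ n → lamG n = c n * lam n)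
    {Q A : ℝ} (h : Sq lam Q A) : Sq lamG Q A := by
  intro r hr
  refine (Finset.sum_le_sum fun n hn => ?_).trans (h r hr)
  have hn1 : 1 ≤ n := by
    unfold Bk at hn
    exact lt_of_le_of_lt (Nat.zero_le _) (Finset.mem_Ioc.1 hn).1
  rw [ht n hn1, norm_mul]
  have h1 : ‖c n‖ * ‖lam n‖ ≤ ‖lam n‖ := mul_le_of_le_one_left (norm_nonneg _) (hc n)
  exact pow_le_pow_left₀ (by positivity) h1 2

theorem pf_Z1T (hEUL : Pool.Agent.H27.ZF.T_EUL) (hLSF : T_LSF) (hBS : T_BS) (hBDT : T_BDT)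
    (hBLT : T_BLT) (hNZL : Pool.Agent.H78.ZF.T_NZL) : T_Z1T := by
  classical
  intro m d0 e hm hd0 he
  obtain ⟨d, c1, k0, B, Q0, hd, hd2, hdd, hc1, hc1e, hk0, hB, hQ0, hLF⟩ :=
    loc_form hEUL hNZL m d0 e hm hd0 he
  refine ⟨2 * c1, by linarith, ?_⟩
  intro ε hε
  obtain ⟨CF, hCF, hWS⟩ := wsum hLSF m ε hm hε
  obtain ⟨CS, hCS, hS'⟩ := hBS m ε hm hε
  obtain ⟨CD, hCD, hD'⟩ := hBDT m B ε hm hB hε
  obtain ⟨CL, hCL, hL'⟩ := hBLT m (d / 2) B ε hm (by positivity) (by linarith) hB hε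
  have hQ00 : 0 < Q0 := by linarith
  refine ⟨3 * CS + CD + CL + 2 * CF * Q0 ^ (2 * c1), by positivity, ?_⟩
  intro N _ T D hS B0 H U hB0 hH hHU S _ _ F lam W hF c M _ G lamG hc hG L hL t0 ht0
  have hN1 : (1 : ℝ) ≤ N := by exact_mod_cast (NeZero.one_le (n := N))
  have hN0 : (0 : ℝ) < N := by linarith
  have hH0 : 0 < H := by linarith
  have hU0 : 0 < U := by linarith
  have hB00 : 0 < B0 := by linarith
  have hnz : ∀ i, NZ (F i) := fun i => Pool.Agent.H69.ZN.nz_of_one hS (nU_of_orthn hF.orth i)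
  have hl1 : ∀ i, lam i 1 = 1 := fun i => by
    obtain ⟨q, hq⟩ := hEUL m N T D hS (F i) (lam i) (hF.cus i).1.toHecA (hnz i)
    exact hq.one
  have hnG : ∀ i, NZ (G i) := fun i => Pool.Agent.H69.ZN.nz_of_one (hG.sys i).1 (hG.form i).2.2
  obtain ⟨Q, hQ⟩ : ∃ Q : ℝ, Q = (N : ℝ) * H ^ m := ⟨_, rfl⟩
  have hPm : 1 ≤ H ^ m := one_le_pow₀ hH
  have hQ1 : 1 ≤ Q := by
    rw [hQ]
    calc (1 : ℝ) = 1 * 1 := (one_mul _).symm
      _ ≤ N * H ^ m := mul_le_mul hN1 hPm zero_le_one (by positivity)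
  have hQp : 0 < Q := by linarith
  obtain ⟨Y, hY⟩ : ∃ Y : ℝ, Y = ((N : ℝ) * B0 * U) ^ ε * Q3 m N B0 H U := ⟨_, rfl⟩
  have hNP : ((N : ℝ) * H) ^ ε ≤ ((N : ℝ) * B0 * U) ^ ε := by
    refine Real.rpow_le_rpow (by positivity) ?_ hε.le
    calc (N : ℝ) * H ≤ N * U := mul_le_mul_of_nonneg_left hHU hN0.le
      _ = N * 1 * U := by ring
      _ ≤ N * B0 * U := by gcongr
  have hQ3 : (N : ℝ) ^ m * H ^ (m ^ 2) ≤ Q3 m N B0 H U := by
    unfold Q3
    have h1 : 0 ≤ B0 ^ ((m : ℝ) / 2) * U ^ ((m : ℝ) ^ 2 / 2) := by positivity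
    linarith
  have hY1 : ((N : ℝ) * H) ^ ε * ((N : ℝ) ^ m * H ^ (m ^ 2)) ≤ Y := by
    rw [hY]
    exact mul_le_mul hNP hQ3 (by positivity) (by positivity)
  have hY0 : 0 ≤ Y := le_trans (by positivity) hY1
  rw [← hQ, ← hY]
  rcases le_or_gt Q0 Q with hQQ | hQQ
  · -- large conductor
    have hA1 : 1 ≤ Q ^ c1 := Real.one_le_rpow hQ1 hc1.le
    have hA2 : 1 ≤ Q ^ (2 * c1) := Real.one_le_rpow hQ1 (by linarith)
    have eS := hS' N T D hS H hH S F lam W hF (Q ^ (2 * c1)) hA2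
    have eD := hD' N T D hS H hH S F lam W hF c lamG hc hG.tw t0 (k0 * Real.log Q)
      (Q ^ (1 / (4 * (m : ℝ)))) (Q ^ c1) hA1
    have eL := hL' N T D hS B0 H U hB0 hH hHU S F lam W hF c M G lamG hc hG L hL t0 ht0 (Q ^ c1) hA1
    rw [← hQ] at eS eD
    rw [← hY] at eL
    have hp2 : (Q ^ c1) ^ 2 = Q ^ (2 * c1) := by
      rw [← Real.rpow_natCast, ← Real.rpow_mul hQp.le]
      congr 1
      push_cast
      ring
    rw [hp2] at eD eL
    have hdiv : ∀ C : ℝ, 0 ≤ C → C * ((N : ℝ) * H) ^ ε * ((N : ℝ) ^ m * H ^ (m ^ 2)) / Q ^ (2 * c1) ≤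
        C * (Y * Q ^ (-(2 * c1))) := by
      intro C hC
      rw [div_eq_mul_inv, ← Real.rpow_neg hQp.le, mul_assoc C, mul_assoc C]
      exact mul_le_mul_of_nonneg_left (mul_le_mul_of_nonneg_right hY1 (by positivity)) hC
    have fS := eS.trans (hdiv CS hCS.le)
    have fD := eD.trans (hdiv CD hCD.le)
    have fL : _ ≤ CL * (Y * Q ^ (-(2 * c1))) := eL.trans (le_of_eq (by
      rw [div_eq_mul_inv, ← Real.rpow_neg hQp.le, mul_assoc]))
    have key : ∀ i, W i * (((Wi t0 H).filter (fun k : ℤ => Out (L i) d0 (Q ^ (-e)) (Q ^ e) k)).card : ℝ) ≤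
        3 * ((if Sq (lam i) Q (Q ^ (2 * c1)) then 0 else W i) * H) +
        W i * (((Wi t0 H).filter (fun k : ℤ => ∃ s : ℂ, 1 / 2 ≤ s.re ∧ s.re ≤ B ∧
          |s.im - k| ≤ B ∧ ¬ Dp m (lamG i) Q (k0 * Real.log Q) (Q ^ (1 / (4 * (m : ℝ))))
            (Q ^ c1) s)).card : ℝ) +
        W i * (((Wi t0 H).filter (fun k : ℤ => ∃ s : ℂ, 1 / 2 + d / 2 ≤ s.re ∧
          s.re ≤ B ∧ |s.im - k| ≤ B ∧ Q ^ c1 < ‖L i s‖)).card : ℝ) := by
      intro i
      have hW := hF.nn i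
      by_cases hSq : Sq (lam i) Q (Q ^ (2 * c1))
      · rw [if_pos hSq, zero_mul, mul_zero, zero_add, ← mul_add]
        refine mul_le_mul_of_nonneg_left ?_ hW
        rw [← Nat.cast_add]
        refine Nat.cast_le.2 (le_trans (Finset.card_le_card ?_) (Finset.card_union_le _ _))
        intro k hk
        rw [Finset.mem_filter] at hk
        obtain ⟨hk1, s0, hs0, hs1, hs2⟩ := hk
        rw [Finset.mem_union, Finset.mem_filter, Finset.mem_filter]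
        by_contra hcon
        push Not at hcon
        obtain ⟨hcD, hcL⟩ := hcon
        have hcD := hcD hk1
        have hcL := hcL hk1
        have h1 := hLF (M i) T D (hG.sys i).1 (G i) (lamG i) (hG.form i).1 (hnG i) (L i) (hL i) Q k hQQ
          (sq_tw hc (hG.tw i) hSq) hcD hcL s0 hs0 hs1
        rcases hs2 with h | h
        · exact absurd h1.1 (not_le.2 h)
        · exact absurd h1.2 (not_le.2 h)
      · rw [if_neg hSq]
        have h1 := card_Wi (t0 := t0) hH (fun k : ℤ => Out (L i) d0 (Q ^ (-e)) (Q ^ e) k)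
        have h2 := mul_le_mul_of_nonneg_left h1 hW
        refine h2.trans ?_
        have h3 : 0 ≤ W i * (((Wi t0 H).filter (fun k : ℤ => ∃ s : ℂ, 1 / 2 ≤ s.re ∧
          s.re ≤ B ∧
          |s.im - k| ≤ B ∧ ¬ Dp m (lamG i) Q (k0 * Real.log Q) (Q ^ (1 / (4 * (m : ℝ))))
            (Q ^ c1) s)).card : ℝ) := by positivity
        have h4 : 0 ≤ W i * (((Wi t0 H).filter (fun k : ℤ => ∃ s : ℂ,
          1 / 2 + d / 2 ≤ s.re ∧
          s.re ≤ B ∧ |s.im - k| ≤ B ∧ Q ^ c1 < ‖L i s‖)).card : ℝ) := by positivity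
        linarith
    refine (Finset.sum_le_sum fun i _ => key i).trans ?_
    rw [Finset.sum_add_distrib, Finset.sum_add_distrib, ← Finset.mul_sum]
    have hz : 0 ≤ 2 * CF * Q0 ^ (2 * c1) * (Y * Q ^ (-(2 * c1))) := by positivity
    calc _ ≤ 3 * (CS * (Y * Q ^ (-(2 * c1)))) + CD * (Y * Q ^ (-(2 * c1))) +
          CL * (Y * Q ^ (-(2 * c1))) := by
          gcongr
      _ ≤ _ := by
          rw [mul_assoc _ Y, add_mul, add_mul, add_mul]
          linarith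
  · -- small conductor
    have h1 := hWS N T D hS H hH S F lam W hF hl1
    have h3 : ∑ i, W i * (((Wi t0 H).filter
        (fun k : ℤ => Out (L i) d0 (Q ^ (-e)) (Q ^ e) k)).card : ℝ) ≤ ∑ i, W i * (3 * H) :=
      Finset.sum_le_sum fun i _ => mul_le_mul_of_nonneg_left (card_Wi hH _) (hF.nn i)
    rw [← Finset.sum_mul] at h3
    have h4 : 1 ≤ Q0 ^ (2 * c1) * Q ^ (-(2 * c1)) := by
      rw [Real.rpow_neg hQp.le, ← div_eq_mul_inv, one_le_div (by positivity)]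
      exact Real.rpow_le_rpow hQp.le hQQ.le (by linarith)
    have h6 : 2 * H * ∑ i, W i ≤ CF * Y := by
      refine h1.trans ?_
      rw [mul_assoc]
      exact mul_le_mul_of_nonneg_left hY1 hCF.le
    have h7 : (∑ i, W i) * (3 * H) ≤ 2 * (CF * Y) := by
      have h8 : 0 ≤ 2 * H * ∑ i, W i :=
        mul_nonneg (by linarith) (Finset.sum_nonneg fun i _ => hF.nn i)
      calc (∑ i, W i) * (3 * H) = 3 / 2 * (2 * H * ∑ i, W i) := by ring
        _ ≤ 2 * (2 * H * ∑ i, W i) := mul_le_mul_of_nonneg_right (by norm_num) h8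
        _ ≤ _ := mul_le_mul_of_nonneg_left h6 (by norm_num)
    refine h3.trans (h7.trans ?_)
    have h9 : 0 ≤ (3 * CS + CD + CL) * (Y * Q ^ (-(2 * c1))) := by positivity
    have h10 : 2 * (CF * Y) ≤ 2 * (CF * Y) * (Q0 ^ (2 * c1) * Q ^ (-(2 * c1))) :=
      le_mul_of_one_le_right (by positivity) h4
    calc 2 * (CF * Y) ≤ (3 * CS + CD + CL) * (Y * Q ^ (-(2 * c1))) +
          2 * (CF * Y) * (Q0 ^ (2 * c1) * Q ^ (-(2 * c1))) := by linarith
      _ = _ := by ring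

/-- the same in the form of the board cz -/
theorem pf_Z1C (hEUL : Pool.Agent.H27.ZF.T_EUL) (hLSF : T_LSF) (hBS : T_BS) (hBDT : T_BDT)
    (hBLT : T_BLT) (hNZL : Pool.Agent.H78.ZF.T_NZL) : Pool.Agent.H31.CZ.T_Z1T := by
  intro m d e hm hd he
  obtain ⟨a, ha, h⟩ := pf_Z1T hEUL hLSF hBS hBDT hBLT hNZL m d e hm hd he
  refine ⟨a, ha, fun ε hε => ?_⟩
  obtain ⟨C, hC, h⟩ := h ε hε
  refine ⟨C, hC, ?_⟩
  intro N _ T D hS B0 H U hB0 hH hHU S _ _ F lam W hF c M _ G lamG hc hG L hL t0 ht0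
  have h1 := h N T D hS B0 H U hB0 hH hHU S F lam W hF c M G lamG hc hG L hL t0 ht0
  rw [← mul_assoc C] at h1
  exact h1

end Pool.Agent.H87.TZF
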